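import Pool.Agent.Work.MP_5955e5_nt.QDefs
import Pool.Agent.Work.MP_5955e5_nt.C.Tab

/-!
# Cell RV, block (e1): the lattice sum `e(w)` is its `q`-series (helper20)
-/

set_option autoImplicit false

open Complex Pool.RV.C

namespace Pool.RV

/-- the coefficient of `γ⁻⁴`, `γ = m τ + n` -/
noncomputable def cfE (m : ℤ) : ℂ :=
  -ch (0, 0) (m, 0) + 3 * ch (1, 0) (m, 0) - 3 * ch (2, 0) (m, 0) + ch (3, 0) (m, 0)

lemma ch_fst (i : ℤ) (v : ℤ × ℤ) : ch (i, 0) v = ch (i, 0) (v.1, 0) := by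
  simp [ch]

lemma hasSum_Ke {w : ℝ} (hw : 0 < w) :
    HasSum (fun v : ℤ × ℤ => cfE v.1 * ui w v ^ 4) (Ke 4 0 w) := by
  have h := fun a => hasSum_K hw (p := 4) (q := 0) (by norm_num) a
  have h1 := (((h (0, 0)).neg.add ((h (1, 0)).mul_left 3)).sub ((h (2, 0)).mul_left 3)).add
    (h (3, 0))
  have e : (fun v : ℤ × ℤ => cfE v.1 * ui w v ^ 4) = fun v =>
      -(ch (0, 0) v * (ui w v ^ 4 * ub w v ^ 0)) + 3 * (ch (1, 0) v * (ui w v ^ 4 * ub w v ^ 0))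
        - 3 * (ch (2, 0) v * (ui w v ^ 4 * ub w v ^ 0))
        + ch (3, 0) v * (ui w v ^ 4 * ub w v ^ 0) := by
    funext v
    rw [cfE, ch_fst 0 v, ch_fst 1 v, ch_fst 2 v, ch_fst 3 v]
    ring
  rw [e]
  exact h1

/-- the coefficient of the `q`-series -/
noncomputable def ac (m : ℕ) : ℝ :=
  if m % 2 = 1 then (if m % 3 = 0 then (-8 : ℝ) else 1) else 0

lemma cf_zero : cfE 0 = 0 := by
  simp only [cfE]
  have : ((0 : ℤ), (0 : ℤ)) = 0 := rfl
  rw [this, ch_zero_right, ch_zero_right, ch_zero_right, ch_zero_right]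
  norm_num

lemma cs_comb (k : ZMod 6) : -cs (0 * k) + 3 * cs (1 * k) - 3 * cs (2 * k) + cs (3 * k) =
    2 * (if k = 1 ∨ k = 5 then 1 else if k = 3 then -8 else 0) := by
  revert k
  decide

lemma cfE_add_neg (m : ℕ) : cfE m + cfE (-m) = 2 * (ac m : ℂ) := by
  have hz : ∀ i : ℤ, ch (i, 0) ((m : ℤ), 0) + ch (i, 0) (-(m : ℤ), 0) =
      ((cs ((i : ZMod 6) * (m : ZMod 6)) : ℤ) : ℂ) := by
    intro i
    have := z6_zpow_add (i * m)
    rw [Int.cast_mul, Int.cast_natCast] at this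
    rw [ch_eq_zpow, ch_eq_zpow, ← this]
    simp
  have h0 := hz 0
  have h1 := hz 1
  have h2 := hz 2
  have h3 := hz 3
  rw [Int.cast_zero] at h0
  rw [Int.cast_one] at h1
  rw [Int.cast_ofNat] at h2 h3
  have e : cfE m + cfE (-m) =
      ((-(cs (0 * (m : ZMod 6))) + 3 * cs (1 * (m : ZMod 6))
        - 3 * cs (2 * (m : ZMod 6)) + cs (3 * (m : ZMod 6)) : ℤ) : ℂ) := by
    push_cast
    rw [cfE, cfE]
    linear_combination -h0 + 3 * h1 - 3 * h2 + h3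
  rw [e, cs_comb]
  have hk : ((m : ℕ) : ZMod 6) = ((m % 6 : ℕ) : ZMod 6) := by
    rw [ZMod.natCast_mod]
  have hlt : m % 6 < 6 := Nat.mod_lt _ (by norm_num)
  have hm2 : m % 2 = (m % 6) % 2 := by omega
  have hm3 : m % 3 = (m % 6) % 3 := by omega
  rw [ac, hm2, hm3, hk]
  generalize m % 6 = r at *
  interval_cases r
  · rw [if_neg (by decide), if_neg (by decide)]; simp
  · rw [if_pos (by decide)]; simp
  · rw [if_neg (by decide), if_neg (by decide)]; simp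
  · rw [if_neg (by decide), if_pos (by decide)]; norm_num
  · rw [if_neg (by decide), if_neg (by decide)]; simp
  · rw [if_pos (by decide)]; simp

/-- `q = -exp (-2 π w)` -/
noncomputable def qq (w : ℝ) : ℝ := -Real.exp (-2 * Real.pi * w)

lemma norm_qq_lt {w : ℝ} (hw : 0 < w) : ‖qq w‖ < 1 := by
  rw [qq, norm_neg, Real.norm_eq_abs, abs_of_pos (Real.exp_pos _), Real.exp_lt_one_iff]
  have := Real.pi_pos
  nlinarith [mul_pos this hw]

/-- the row sum -/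
lemma row_sum {w : ℝ} (hw : 0 < w) (m : ℕ) :
    ∑' n : ℤ, ui w ((m + 1 : ℕ), n) ^ 4 = (8 * Real.pi ^ 4 / 3 : ℝ) *
      ∑' d : ℕ, ((d + 1 : ℝ) ^ 3 * qq w ^ ((m + 1) * (d + 1)) : ℝ) := by
  set z : UpperHalfPlane := ⟨((m + 1 : ℕ) : ℂ) * tau w, by
    rw [show ((m + 1 : ℕ) : ℂ) = ((m + 1 : ℕ) : ℝ) by push_cast; rfl, Complex.im_ofReal_mul,
      tau_im]
    positivity⟩ with hz
  have h := EisensteinSeries.qExpansion_identity_pnat (k := 3) (by norm_num) z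
  have h1 : ∀ n : ℤ, ui w ((m + 1 : ℕ), n) ^ 4 = 1 / ((z : ℂ) + n) ^ (3 + 1) := by
    intro n
    rw [ui, gm, inv_pow, one_div]
    simp [hz]
  have hq : cexp (2 * Real.pi * I * z) = ((qq w ^ (m + 1) : ℝ) : ℂ) := by
    have e1 : (2 * Real.pi * I * (z : ℂ) : ℂ) =
        ((m + 1 : ℕ) : ℂ) * (-(Real.pi * I) + ((-2 * Real.pi * w : ℝ) : ℂ)) := by
      rw [hz]
      simp only
      rw [tau]
      push_cast
      linear_combination (2 * (m + 1) * Real.pi * w) * I_mul_I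
    rw [e1, Complex.exp_nat_mul, Complex.exp_add, Complex.exp_neg, Complex.exp_pi_mul_I,
      ← Complex.ofReal_exp, qq]
    push_cast
    congr 1
    norm_num
  rw [tsum_congr h1, h, hq]
  have h2 : (-2 * (Real.pi : ℂ) * I) ^ (3 + 1) / ((Nat.factorial 3 : ℕ) : ℂ) =
      ((8 * Real.pi ^ 4 / 3 : ℝ) : ℂ) := by
    push_cast [Nat.factorial]
    have hI : I ^ 4 = 1 := I_pow_four
    linear_combination (8 * (Real.pi : ℂ) ^ 4 / 3) * hI
  rw [h2]
  congr 1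
  rw [tsum_pnat_eq_tsum_succ (f := fun n : ℕ => (n : ℂ) ^ 3 * (((qq w ^ (m + 1) : ℝ) : ℂ)) ^ n),
    Complex.ofReal_tsum]
  refine tsum_congr fun d => ?_
  push_cast
  rw [pow_mul]

/-- the double series is absolutely summable -/
lemma summable_double {w : ℝ} (hw : 0 < w) :
    Summable fun x : ℕ × ℕ => ac (x.1 + 1) * ((x.2 + 1 : ℝ) ^ 3 * qq w ^ ((x.1 + 1) * (x.2 + 1))) := by
  have hr := norm_qq_lt hw
  have h1 : Summable fun m : ℕ => 8 * ‖qq w‖ ^ m :=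
    (summable_geometric_of_lt_one (norm_nonneg _) hr).mul_left 8
  have hpos : 0 < ‖qq w‖ := by
    rw [qq, norm_neg, Real.norm_eq_abs, abs_of_pos (Real.exp_pos _)]
    exact Real.exp_pos _
  have h2 : Summable fun d : ℕ => (d + 1 : ℝ) ^ 3 * ‖qq w‖ ^ d := by
    have h4 : Summable fun d : ℕ => (d : ℝ) ^ 3 * ‖qq w‖ ^ d :=
      summable_pow_mul_geometric_of_norm_lt_one 3 (by rwa [norm_norm])
    have h5 := ((summable_nat_add_iff 1).2 h4).mul_right ‖qq w‖⁻¹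
    refine h5.congr fun d => ?_
    push_cast
    field_simp
    ring
  have h3 := h1.mul_of_nonneg h2 (fun m => by positivity) (fun d => by positivity)
  refine Summable.of_norm_bounded h3 fun x => ?_
  rw [norm_mul, norm_mul, norm_pow, norm_pow]
  have e1 : ‖ac (x.1 + 1)‖ ≤ 8 := by
    rw [ac]
    split_ifs <;> norm_num
  have e2 : ‖(x.2 + 1 : ℝ)‖ = x.2 + 1 := by
    rw [Real.norm_eq_abs, abs_of_pos (by positivity)]
  have e3 : ‖qq w‖ ^ ((x.1 + 1) * (x.2 + 1)) ≤ ‖qq w‖ ^ x.1 * ‖qq w‖ ^ x.2 := by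
    rw [← pow_add]
    exact pow_le_pow_of_le_one (norm_nonneg _) hr.le (by nlinarith [Nat.zero_le (x.1 * x.2)])
  rw [e2]
  calc ‖ac (x.1 + 1)‖ * ((x.2 + 1 : ℝ) ^ 3 * ‖qq w‖ ^ ((x.1 + 1) * (x.2 + 1)))
      ≤ 8 * ((x.2 + 1 : ℝ) ^ 3 * (‖qq w‖ ^ x.1 * ‖qq w‖ ^ x.2)) := by gcongr
    _ = 8 * ‖qq w‖ ^ x.1 * ((x.2 + 1 : ℝ) ^ 3 * ‖qq w‖ ^ x.2) := by ring

theorem block_e1 {w : ℝ} (hw : 0 < w) : ee w = eqs w := by
  have hK := hasSum_Ke hw
  -- rows
  set G : ℤ → ℂ := fun m => ∑' n : ℤ, ui w (m, n) ^ 4 with hG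
  have hrow : HasSum (fun m : ℤ => cfE m * G m) (Ke 4 0 w) := by
    have h1 := hK.summable.hasSum.prod_fiberwise (f := fun v : ℤ × ℤ => cfE v.1 * ui w v ^ 4)
      (g := fun m => cfE m * G m) ?_
    · rwa [hK.tsum_eq] at h1
    · intro m
      have h2 := hK.summable.prod_factor m
      have h3 := h2.hasSum
      simp only at h3
      rw [tsum_mul_left] at h3
      exact h3
  have hGneg : ∀ m : ℤ, G (-m) = G m := by
    intro m
    rw [hG]
    simp only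
    rw [← (Equiv.neg ℤ).tsum_eq]
    refine tsum_congr fun n => ?_
    have : ((-m, (Equiv.neg ℤ) n) : ℤ × ℤ) = -(m, n) := by simp
    rw [this, ui_neg]
    ring
  have hnat := hrow.summable
  have h0 := tsum_of_add_one_of_neg_add_one (f := fun m : ℤ => cfE m * G m)
    (hnat.comp_injective (i := fun n : ℕ => (n : ℤ) + 1) (fun a b h => by simpa using h))
    (hnat.comp_injective (i := fun n : ℕ => -((n : ℤ) + 1)) (fun a b h => by simpa using h))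
  have hs1 : Summable fun n : ℕ => cfE ((n : ℤ) + 1) * G ((n : ℤ) + 1) :=
    hnat.comp_injective (i := fun n : ℕ => (n : ℤ) + 1) (fun a b h => by simpa using h)
  have hs2 : Summable fun n : ℕ => cfE (-((n : ℤ) + 1)) * G (-((n : ℤ) + 1)) :=
    hnat.comp_injective (i := fun n : ℕ => -((n : ℤ) + 1)) (fun a b h => by simpa using h)
  rw [hrow.tsum_eq, cf_zero, zero_mul, add_zero, ← hs1.tsum_add hs2] at h0
  have h6 : ∀ n : ℕ, cfE ((n : ℤ) + 1) * G ((n : ℤ) + 1) +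
      cfE (-((n : ℤ) + 1)) * G (-((n : ℤ) + 1)) =
      ((16 * Real.pi ^ 4 / 3 * ∑' d : ℕ, ac (n + 1) *
        ((d + 1 : ℝ) ^ 3 * qq w ^ ((n + 1) * (d + 1))) : ℝ) : ℂ) := by
    intro n
    have h7 := cfE_add_neg (n + 1)
    have h8 := row_sum hw n
    have h9 : G ((n : ℤ) + 1) = (8 * Real.pi ^ 4 / 3 : ℝ) *
      ∑' d : ℕ, ((d + 1 : ℝ) ^ 3 * qq w ^ ((n + 1) * (d + 1)) : ℝ) := by
      rw [hG]
      simp only
      rw [← h8]
      push_cast
      rfl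
    rw [hGneg, h9, tsum_mul_left]
    push_cast at h7 ⊢
    linear_combination (8 * (Real.pi : ℂ) ^ 4 / 3 *
      ∑' d : ℕ, ((d + 1 : ℂ) ^ 3 * (qq w : ℂ) ^ ((n + 1) * (d + 1)))) * h7
  rw [tsum_congr h6, ← Complex.ofReal_tsum, tsum_mul_left] at h0
  rw [ee, h0, Complex.ofReal_re, eqs]
  have h10 : ∀ x : ℕ × ℕ, (if (x.1 + 1) % 2 = 1 then (if (x.1 + 1) % 3 = 0 then (-8 : ℝ) else 1)
      else 0) * (x.2 + 1 : ℝ) ^ 3 * (-Real.exp (-2 * Real.pi * w)) ^ ((x.1 + 1) * (x.2 + 1)) =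
      ac (x.1 + 1) * ((x.2 + 1 : ℝ) ^ 3 * qq w ^ ((x.1 + 1) * (x.2 + 1))) := by
    intro x
    rw [ac, qq, mul_assoc]
  rw [tsum_congr h10, (summable_double hw).tsum_prod]
  have := Real.pi_pos
  field_simp

end Pool.RV
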