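import Pool.Agent.Work.MP_5955e5_nt.E.Rows

/-!
# Cell RV, block (e2), part 3: `lx w = lxq w` (helper11)
-/

set_option autoImplicit false

open Complex Filter Topology

namespace Pool.RV

/-- the coefficient `(-1)^m (1 + 3 [3 ∣ m])` -/
noncomputable def c2 (m : ℕ) : ℝ := (-1) ^ m * (if m % 3 = 0 then 4 else 1)

lemma ch_pair (j : ℤ) (m : ℕ) :
    ch (j, 0) ((m : ℤ), 0) + ch (j, 0) (-(m : ℤ), 0)
      = ((2 * Real.cos (j * (m * Real.pi) / 3) : ℝ) : ℂ) := by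
  rw [ch, ch]
  have h1 : 2 * (Real.pi : ℂ) * I * ((j * (m : ℤ) + 0 * 0 : ℤ) : ℂ) / 6
      = ((j * (m * Real.pi) / 3 : ℝ) : ℂ) * I := by
    push_cast
    ring
  have h2 : 2 * (Real.pi : ℂ) * I * ((j * -(m : ℤ) + 0 * 0 : ℤ) : ℂ) / 6
      = -((j * (m * Real.pi) / 3 : ℝ) : ℂ) * I := by
    push_cast
    ring
  simp only
  rw [h1, h2]
  push_cast
  rw [Complex.cos]
  push_cast
  ring

lemma cos_coeff (m : ℕ) :
    2 * Real.cos (((1 : ℤ) : ℝ) * (m * Real.pi) / 3) + 2 * Real.cos (((3 : ℤ) : ℝ) * (m * Real.pi) / 3)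
      = c2 m := by
  have e3 : ((3 : ℤ) : ℝ) * (m * Real.pi) / 3 = m * Real.pi := by push_cast; ring
  rw [e3, Real.cos_nat_mul_pi, c2]
  obtain ⟨k, r, hr, rfl⟩ : ∃ k r : ℕ, r < 3 ∧ m = 3 * k + r :=
    ⟨m / 3, m % 3, Nat.mod_lt _ (by norm_num), (Nat.div_add_mod m 3).symm⟩
  have e1 : ((1 : ℤ) : ℝ) * (((3 * k + r : ℕ) : ℝ) * Real.pi) / 3
      = r * Real.pi / 3 + k * Real.pi := by
    push_cast
    ring
  rw [e1, Real.cos_add_nat_mul_pi]
  have hk : ((-1 : ℝ)) ^ (3 * k + r) = (-1) ^ k * (-1) ^ r := by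
    rw [pow_add, pow_mul]
    norm_num
  rw [hk]
  have hm : (3 * k + r) % 3 = r := by omega
  rw [hm]
  interval_cases r
  · simp
    ring
  · have : ((1 : ℕ) : ℝ) * Real.pi / 3 = Real.pi / 3 := by push_cast; ring
    rw [this, Real.cos_pi_div_three]
    norm_num
    ring
  · have : ((2 : ℕ) : ℝ) * Real.pi / 3 = Real.pi - Real.pi / 3 := by push_cast; ring
    rw [this, Real.cos_pi_sub, Real.cos_pi_div_three]
    norm_num
    ring

/-- the sum of the two finite sums, real form -/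
lemma PS_add (w : ℝ) (N : ℕ) :
    PS w 1 N + PS w 3 N
      = ((2 * fr w 0 + ∑ n ∈ Finset.range N, c2 (n + 1) * fr w ((n : ℤ) + 1) : ℝ) : ℂ) := by
  rw [PS, PS]
  have h : ∀ n : ℕ, (ch (1, 0) ((n : ℤ) + 1, 0) + ch (1, 0) (-((n : ℤ) + 1), 0))
      + (ch (3, 0) ((n : ℤ) + 1, 0) + ch (3, 0) (-((n : ℤ) + 1), 0)) = (c2 (n + 1) : ℂ) := by
    intro n
    have h1 := ch_pair 1 (n + 1)
    have h3 := ch_pair 3 (n + 1)
    have e : ((n + 1 : ℕ) : ℤ) = (n : ℤ) + 1 := by push_cast; rfl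
    rw [e] at h1 h3
    rw [h1, h3, ← ofReal_add, cos_coeff]
  push_cast
  simp only [← h, add_mul, Finset.sum_add_distrib]
  ring

/-- the correction term -/
noncomputable def hh (w : ℝ) (n : ℕ) : ℝ := (-rr w) ^ (n + 1) / (1 - (-rr w) ^ (n + 1))

lemma one_sub_q_ne {w : ℝ} (hw : 0 < w) (n : ℕ) : 1 - (-rr w) ^ (n + 1) ≠ 0 := by
  have := (abs_lt.mp (abs_q_pow_lt hw (m := n + 1) (by omega))).2
  intro h
  linarith

lemma fr_succ {w : ℝ} (hw : 0 < w) (n : ℕ) :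
    fr w ((n : ℤ) + 1) = Real.pi / w * (1 / ((n : ℝ) + 1))
      + 2 * Real.pi / w * (1 / ((n : ℝ) + 1) * hh w n) := by
  have h0 : ((n : ℤ) + 1).natAbs = n + 1 := by omega
  rw [fr, if_neg (by omega), h0, hh]
  have h1 := one_sub_q_ne hw n
  have h2 : (n : ℝ) + 1 ≠ 0 := by positivity
  push_cast
  field_simp
  ring

lemma abs_hh_le {w : ℝ} (hw : 0 < w) (n : ℕ) : |hh w n| ≤ rr w ^ n * (1 / (1 - rr w)) := by
  have hq1 : |(-rr w) ^ (n + 1)| ≤ rr w := by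
    rw [abs_rr_pow]
    calc rr w ^ (n + 1) ≤ rr w ^ 1 :=
          pow_le_pow_of_le_one (rr_pos w).le (rr_lt_one hw).le (by omega)
      _ = rr w := pow_one _
  have hq2 := abs_le.mp hq1
  have hr := rr_lt_one hw
  rw [hh, abs_div, abs_rr_pow, div_eq_mul_one_div]
  have h4 : 1 - rr w ≤ |1 - (-rr w) ^ (n + 1)| := by
    refine le_trans ?_ (le_abs_self _)
    linarith [hq2.2]
  have h5 : 0 < 1 - rr w := by linarith
  apply mul_le_mul _ (one_div_le_one_div_of_le h5 h4) (by positivity)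
    (pow_nonneg (rr_pos w).le _)
  exact pow_le_pow_of_le_one (rr_pos w).le hr.le (by omega)

lemma abs_c2_le (m : ℕ) : |c2 m| ≤ 4 := by
  rw [c2, abs_mul, abs_pow, abs_neg, abs_one, one_pow, one_mul]
  split_ifs <;> norm_num

lemma summable_c2_hh {w : ℝ} (hw : 0 < w) :
    Summable fun n : ℕ => c2 (n + 1) * (1 / ((n : ℝ) + 1) * hh w n) := by
  refine Summable.of_norm_bounded ((summable_lmaj hw).mul_left 4) (fun n => ?_)
  rw [Real.norm_eq_abs, abs_mul, abs_mul]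
  have h1 := abs_c2_le (n + 1)
  have h2 := abs_hh_le hw n
  have h3 : |1 / ((n : ℝ) + 1)| ≤ 1 := by
    rw [abs_of_pos (by positivity), div_le_one (by positivity)]
    linarith [(Nat.cast_nonneg n : (0 : ℝ) ≤ n)]
  have h4 : |1 / ((n : ℝ) + 1)| * |hh w n| ≤ 1 * (rr w ^ n * (1 / (1 - rr w))) :=
    mul_le_mul h3 h2 (abs_nonneg _) zero_le_one
  calc |c2 (n + 1)| * (|1 / ((n : ℝ) + 1)| * |hh w n|)
      ≤ 4 * (1 * (rr w ^ n * (1 / (1 - rr w)))) :=
        mul_le_mul h1 h4 (by positivity) (by norm_num)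
    _ = _ := by ring

/-! the conditionally convergent part -/

lemma c2_fin (N : ℕ) :
    ∑ n ∈ Finset.range (6 * N), c2 (n + 1) * (1 / ((n : ℝ) + 1))
      = -(harmonic (6 * N) : ℝ) + (harmonic (3 * N) : ℝ) - (harmonic (2 * N) : ℝ)
        + (harmonic N : ℝ) := by
  induction N with
  | zero => simp
  | succ N ih =>
    have e1 : 6 * (N + 1) = 6 * N + 1 + 1 + 1 + 1 + 1 + 1 := by ring
    have e2 : 3 * (N + 1) = 3 * N + 1 + 1 + 1 := by ring
    have e3 : 2 * (N + 1) = 2 * N + 1 + 1 := by ring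
    rw [e1, e2, e3]
    rw [Finset.sum_range_succ, Finset.sum_range_succ, Finset.sum_range_succ,
      Finset.sum_range_succ, Finset.sum_range_succ, Finset.sum_range_succ, ih]
    simp only [harmonic_succ]
    have m1 : (6 * N + 1) % 3 ≠ 0 := by omega
    have m2 : (6 * N + 1 + 1) % 3 ≠ 0 := by omega
    have m3 : (6 * N + 1 + 1 + 1) % 3 = 0 := by omega
    have m4 : (6 * N + 1 + 1 + 1 + 1) % 3 ≠ 0 := by omega
    have m5 : (6 * N + 1 + 1 + 1 + 1 + 1) % 3 ≠ 0 := by omega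
    have m6 : (6 * N + 1 + 1 + 1 + 1 + 1 + 1) % 3 = 0 := by omega
    have hp : ((-1 : ℝ)) ^ (6 * N) = 1 := by
      rw [pow_mul]; norm_num
    simp only [c2, if_neg m1, if_neg m2, if_pos m3, if_neg m4, if_neg m5, if_pos m6, pow_succ, hp]
    push_cast
    have p1 : (6 * (N : ℝ) + 1) ≠ 0 := by positivity
    have p2 : (3 * (N : ℝ) + 1) ≠ 0 := by positivity
    have p3 : (2 * (N : ℝ) + 1) ≠ 0 := by positivity
    have p4 : (6 * (N : ℝ) + 1 + 1) ≠ 0 := by positivity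
    have p5 : (6 * (N : ℝ) + 1 + 1 + 1) ≠ 0 := by positivity
    have p6 : (6 * (N : ℝ) + 1 + 1 + 1 + 1) ≠ 0 := by positivity
    have p7 : (6 * (N : ℝ) + 1 + 1 + 1 + 1 + 1) ≠ 0 := by positivity
    have p8 : (6 * (N : ℝ) + 1 + 1 + 1 + 1 + 1 + 1) ≠ 0 := by positivity
    have p9 : (3 * (N : ℝ) + 1 + 1) ≠ 0 := by positivity
    have p10 : (3 * (N : ℝ) + 1 + 1 + 1) ≠ 0 := by positivity
    have p11 : (2 * (N : ℝ) + 1 + 1) ≠ 0 := by positivity
    have p12 : ((N : ℝ) + 1) ≠ 0 := by positivity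
    have q4 : 1 / (6 * (N : ℝ) + 1 + 1) = (3 * (N : ℝ) + 1)⁻¹ / 2 := by
      field_simp; ring
    have q5 : 1 / (6 * (N : ℝ) + 1 + 1 + 1) = (2 * (N : ℝ) + 1)⁻¹ / 3 := by
      field_simp; ring
    have q6 : 1 / (6 * (N : ℝ) + 1 + 1 + 1 + 1) = (3 * (N : ℝ) + 1 + 1)⁻¹ / 2 := by
      field_simp; ring
    have q8 : 1 / (6 * (N : ℝ) + 1 + 1 + 1 + 1 + 1 + 1) = ((N : ℝ) + 1)⁻¹ / 6 := by
      field_simp; ring
    have q10 : (3 * (N : ℝ) + 1 + 1 + 1)⁻¹ = ((N : ℝ) + 1)⁻¹ / 3 := by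
      field_simp; ring
    have q11 : (2 * (N : ℝ) + 1 + 1)⁻¹ = ((N : ℝ) + 1)⁻¹ / 2 := by
      field_simp; ring
    linear_combination 2 * q4 - 3 * q5 + 2 * q6 + 5 * q8 - q10 + q11

lemma tendsto_c2_fin :
    Tendsto (fun N : ℕ => ∑ n ∈ Finset.range (6 * N), c2 (n + 1) * (1 / ((n : ℝ) + 1))) atTop
      (𝓝 (-2 * Real.log 2)) := by
  have hh : ∀ k : ℕ, 0 < k → Tendsto (fun N : ℕ => (harmonic (k * N) : ℝ) - Real.log ((k * N : ℕ) : ℝ))
      atTop (𝓝 Real.eulerMascheroniConstant) := by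
    intro k hk
    exact Real.tendsto_harmonic_sub_log.comp
      (tendsto_id.const_mul_atTop' hk)
  have h6 := hh 6 (by norm_num)
  have h3 := hh 3 (by norm_num)
  have h2 := hh 2 (by norm_num)
  have h1 := hh 1 (by norm_num)
  have h := ((h6.neg.add h3).sub h2).add h1
  have hlim : -Real.eulerMascheroniConstant + Real.eulerMascheroniConstant
      - Real.eulerMascheroniConstant + Real.eulerMascheroniConstant = 0 := by ring
  rw [hlim] at h
  have h' := h.add_const (-2 * Real.log 2)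
  rw [zero_add] at h'
  refine h'.congr' ?_
  filter_upwards [eventually_gt_atTop 0] with N hN
  have hN' : (0 : ℝ) < N := by exact_mod_cast hN
  rw [c2_fin]
  push_cast
  rw [Real.log_mul (by norm_num) hN'.ne', Real.log_mul (by norm_num) hN'.ne',
    Real.log_mul (by norm_num) hN'.ne']
  have h62 : Real.log 6 = Real.log 2 + Real.log 3 := by
    rw [← Real.log_mul (by norm_num) (by norm_num)]
    norm_num
  rw [h62, one_mul, one_mul]
  ring

/-- the value of `Kreg 1 1 (1,0) + Kreg 1 1 (3,0)` -/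
lemma Kreg_add {w : ℝ} (hw : 0 < w) :
    Kreg 1 1 (1, 0) w + Kreg 1 1 (3, 0) w
      = ((2 * fr w 0 + (Real.pi / w * (-2 * Real.log 2)
          + 2 * Real.pi / w * ∑' n : ℕ, c2 (n + 1) * (1 / ((n : ℝ) + 1) * hh w n)) : ℝ) : ℂ) := by
  have h1 := (tendsto_PS hw (j := 1) (by norm_num)).add (tendsto_PS hw (j := 3) (by norm_num))
  simp only [PS_add] at h1
  have h6 : Tendsto (fun N : ℕ => 6 * N) atTop atTop :=
    tendsto_id.const_mul_atTop' (by norm_num)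
  have h2 := h1.comp h6
  refine tendsto_nhds_unique h2 ?_
  have h3 := (summable_c2_hh hw).hasSum.tendsto_sum_nat.comp h6
  have h4 := (tendsto_c2_fin.const_mul (Real.pi / w)).add (h3.const_mul (2 * Real.pi / w))
  have h5 := h4.const_add (2 * fr w 0)
  refine ((Complex.continuous_ofReal.tendsto _).comp h5).congr (fun N => ?_)
  simp only [Function.comp_apply]
  congr 1
  rw [Finset.mul_sum, Finset.mul_sum, ← Finset.sum_add_distrib]
  congr 1
  refine Finset.sum_congr rfl (fun n _ => ?_)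
  rw [fr_succ hw]
  ring

/-! the logarithmic series -/

lemma summable_log_pair {Q : ℝ} (hQ : |Q| < 1) :
    Summable fun x : ℕ × ℕ => (-(Q ^ (x.1 + 1))) ^ (x.2 + 1) / ((x.2 : ℝ) + 1) := by
  have h1 : Summable fun n : ℕ => |Q| ^ n :=
    summable_geometric_of_lt_one (abs_nonneg _) hQ
  have h2 := h1.mul_of_nonneg h1 (fun n => by positivity) (fun n => by positivity)
  refine Summable.of_norm_bounded h2 (fun x => ?_)
  rw [Real.norm_eq_abs, abs_div, abs_pow, abs_neg, abs_pow, ← pow_mul, ← pow_add]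
  have h3 : |((x.2 : ℝ) + 1)| = (x.2 : ℝ) + 1 := abs_of_pos (by positivity)
  rw [h3]
  have h4 : |Q| ^ ((x.1 + 1) * (x.2 + 1)) ≤ |Q| ^ (x.1 + x.2) := by
    apply pow_le_pow_of_le_one (abs_nonneg _) hQ.le
    have h5 : (x.1 + 1) * (x.2 + 1) = x.1 * x.2 + x.1 + x.2 + 1 := by ring
    rw [h5]
    have h6 : 0 ≤ x.1 * x.2 := Nat.zero_le _
    omega
  have h7 : (0 : ℝ) ≤ |Q| ^ ((x.1 + 1) * (x.2 + 1)) := by positivity
  have h8 : (1 : ℝ) ≤ (x.2 : ℝ) + 1 := by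
    linarith [(Nat.cast_nonneg x.2 : (0 : ℝ) ≤ x.2)]
  calc |Q| ^ ((x.1 + 1) * (x.2 + 1)) / ((x.2 : ℝ) + 1) ≤ |Q| ^ ((x.1 + 1) * (x.2 + 1)) :=
        div_le_self h7 h8
    _ ≤ _ := h4

lemma abs_pow_lt_one {Q : ℝ} (hQ : |Q| < 1) (n : ℕ) : |Q ^ (n + 1)| < 1 := by
  rw [abs_pow]
  exact pow_lt_one₀ (abs_nonneg _) hQ (by omega)

/-- `∑_n log (1 + Q^(n+1)) = -∑_k (-1)^(k+1)/(k+1) Q^(k+1)/(1 - Q^(k+1))` -/
lemma tsum_log {Q : ℝ} (hQ : |Q| < 1) :
    ∑' n : ℕ, Real.log (1 + Q ^ (n + 1))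
      = -∑' k : ℕ, (-1) ^ (k + 1) * (1 / ((k : ℝ) + 1) * (Q ^ (k + 1) / (1 - Q ^ (k + 1)))) := by
  have hs := summable_log_pair hQ
  have hs' : Summable fun x : ℕ × ℕ => (-(Q ^ (x.2 + 1))) ^ (x.1 + 1) / ((x.1 : ℝ) + 1) :=
    (Equiv.prodComm ℕ ℕ).summable_iff.mpr hs
  have h1 : ∀ n : ℕ, Real.log (1 + Q ^ (n + 1))
      = -∑' k : ℕ, (-(Q ^ (n + 1))) ^ (k + 1) / ((k : ℝ) + 1) := by
    intro n
    have h2 : |(-(Q ^ (n + 1)))| < 1 := by
      rw [abs_neg]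
      exact abs_pow_lt_one hQ n
    have h3 := Real.hasSum_pow_div_log_of_abs_lt_one h2
    rw [h3.tsum_eq, sub_neg_eq_add, neg_neg]
  simp only [h1]
  rw [tsum_neg]
  congr 1
  rw [Summable.tsum_comm hs']
  refine tsum_congr (fun k => ?_)
  have h4 : HasSum (fun n : ℕ => (Q ^ (k + 1)) ^ n) (1 - Q ^ (k + 1))⁻¹ :=
    hasSum_geometric_of_abs_lt_one (abs_pow_lt_one hQ k)
  have h5 := h4.mul_left ((-1) ^ (k + 1) * (1 / ((k : ℝ) + 1) * Q ^ (k + 1)))
  have h6 : ∀ n : ℕ, (-(Q ^ (n + 1))) ^ (k + 1) / ((k : ℝ) + 1)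
      = (-1) ^ (k + 1) * (1 / ((k : ℝ) + 1) * Q ^ (k + 1)) * (Q ^ (k + 1)) ^ n := by
    intro n
    rw [neg_pow, ← pow_mul, ← pow_mul]
    have h7 : Q ^ ((n + 1) * (k + 1)) = Q ^ (k + 1) * Q ^ ((k + 1) * n) := by
      rw [← pow_add]
      congr 1
      ring
    rw [h7]
    ring
  rw [tsum_congr h6, h5.tsum_eq]
  ring

lemma summable_lser {Q : ℝ} (hQ : |Q| < 1) :
    Summable fun k : ℕ => (-1) ^ (k + 1) * (1 / ((k : ℝ) + 1) * (Q ^ (k + 1) / (1 - Q ^ (k + 1)))) := by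
  have h1 : Summable fun n : ℕ => |Q| ^ n * (1 / (1 - |Q|)) :=
    (summable_geometric_of_lt_one (abs_nonneg _) hQ).mul_right _
  refine Summable.of_norm_bounded h1 (fun n => ?_)
  rw [Real.norm_eq_abs, abs_mul, abs_pow, abs_neg, abs_one, one_pow, one_mul, abs_mul, abs_div (Q ^ (n + 1))]
  have h3 : |1 / ((n : ℝ) + 1)| ≤ 1 := by
    rw [abs_of_pos (by positivity), div_le_one (by positivity)]
    linarith [(Nat.cast_nonneg n : (0 : ℝ) ≤ n)]
  have h4 : |Q ^ (n + 1)| ≤ |Q| ^ n := by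
    rw [abs_pow]
    exact pow_le_pow_of_le_one (abs_nonneg _) hQ.le (by omega)
  have h5 : |Q ^ (n + 1)| ≤ |Q| := by
    rw [abs_pow]
    calc |Q| ^ (n + 1) ≤ |Q| ^ 1 := pow_le_pow_of_le_one (abs_nonneg _) hQ.le (by omega)
      _ = |Q| := pow_one _
  have h6 : 1 - |Q| ≤ |1 - Q ^ (n + 1)| := by
    refine le_trans ?_ (le_abs_self _)
    linarith [(abs_le.mp h5).2]
  have h7 : 0 < 1 - |Q| := by linarith
  have h8 : |Q ^ (n + 1)| / |1 - Q ^ (n + 1)| ≤ |Q| ^ n * (1 / (1 - |Q|)) := by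
    rw [div_eq_mul_one_div]
    exact mul_le_mul h4 (one_div_le_one_div_of_le h7 h6) (by positivity) (by positivity)
  calc |1 / ((n : ℝ) + 1)| * (|Q ^ (n + 1)| / |1 - Q ^ (n + 1)|)
      ≤ 1 * (|Q| ^ n * (1 / (1 - |Q|))) := mul_le_mul h3 h8 (by positivity) zero_le_one
    _ = _ := one_mul _

/-- splitting the coefficient `c2` -/
lemma tsum_c2 {w : ℝ} (hw : 0 < w) :
    ∑' n : ℕ, c2 (n + 1) * (1 / ((n : ℝ) + 1) * hh w n)
      = -(∑' n : ℕ, Real.log (1 + (-rr w) ^ (n + 1)))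
        - ∑' n : ℕ, Real.log (1 + (-rr w) ^ (3 * (n + 1))) := by
  have hq : |(-rr w)| < 1 := by
    have := abs_q_pow_lt hw (m := 1) le_rfl
    rwa [pow_one] at this
  have hq3 : |(-rr w) ^ 3| < 1 := abs_pow_lt_one hq 2
  have e3 : ∀ n : ℕ, Real.log (1 + (-rr w) ^ (3 * (n + 1))) = Real.log (1 + ((-rr w) ^ 3) ^ (n + 1)) := by
    intro n
    rw [pow_mul]
  simp only [e3]
  rw [tsum_log hq, tsum_log hq3, neg_neg, sub_neg_eq_add]
  have hinj : Function.Injective (fun k : ℕ => 3 * k + 2) := by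
    intro a b h
    simp only at h
    omega
  set g : ℕ → ℝ := fun n => if (n + 1) % 3 = 0 then
    3 * ((-1) ^ (n + 1) * (1 / ((n : ℝ) + 1) * hh w n)) else 0 with hg
  have hgs : HasSum g (∑' k : ℕ, (-1) ^ (k + 1) *
      (1 / ((k : ℝ) + 1) * (((-rr w) ^ 3) ^ (k + 1) / (1 - ((-rr w) ^ 3) ^ (k + 1))))) := by
    rw [← hinj.hasSum_iff]
    · refine (summable_lser hq3).hasSum.congr_fun (fun k => ?_)
      simp only [Function.comp_apply, hg]
      rw [if_pos (by omega), hh]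
      have e1 : 3 * k + 2 + 1 = 3 * (k + 1) := by ring
      have e2 : (((3 * k + 2 : ℕ) : ℝ) + 1) = 3 * ((k : ℝ) + 1) := by push_cast; ring
      have e4 : ((-1 : ℝ)) ^ (3 * (k + 1)) = (-1) ^ (k + 1) := by
        rw [pow_mul]; norm_num
      rw [e1, e2, e4, ← pow_mul]
      have e5 : ((k : ℝ) + 1) ≠ 0 := by positivity
      field_simp
    · intro n hn
      rw [hg]
      simp only
      rw [if_neg]
      intro h
      apply hn
      exact ⟨(n - 2) / 3, by simp only; omega⟩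
  have hs1 := (summable_lser hq).hasSum.add hgs
  rw [← hs1.tsum_eq]
  refine tsum_congr (fun n => ?_)
  rw [hg, c2]
  simp only
  split_ifs
  · rw [hh]
    ring
  · rw [hh]
    ring

/-- (e2) for every `w > 0` -/
theorem lx_eq_lxq {w : ℝ} (hw : 0 < w) : lx w = lxq w := by
  have hpi := Real.pi_pos
  rw [lx, Kx, ← mul_add, Kreg_add hw]
  have e1 : ∀ x : ℝ, ((2 : ℂ) * (x : ℂ)).re = 2 * x := by
    intro x
    have : ((2 : ℂ) * (x : ℂ)) = ((2 * x : ℝ) : ℂ) := by push_cast; rfl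
    rw [this, ofReal_re]
  rw [e1, tsum_c2 hw, lxq]
  have e2 : Real.log 8 = 3 * Real.log 2 := by
    have : (8 : ℝ) = 2 ^ 3 := by norm_num
    rw [this, Real.log_pow]
    norm_num
  rw [e2, fr, if_pos rfl]
  simp only [rr]
  field_simp
  ring

/-- (e2) -/
theorem block_e2 {w : ℝ} (hw : 1 / (2 * Real.sqrt 3) < w) : lx w = lxq w := by
  have h1 : (0 : ℝ) < 1 / (2 * Real.sqrt 3) := by positivity
  exact lx_eq_lxq (h1.trans hw)

end Pool.RV
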