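import Pool.Agent.Work.MP_5955e5_nt.B.Cocycle
import Pool.Agent.Work.MP_5955e5_nt.B.Integ

/-!
# Cell RV, block (e2), part 1: row sums of `1/|g|²` (helper11)
-/

set_option autoImplicit false

open Complex Filter Topology

namespace Pool.RV

lemma mem_intCompl {z : ℂ} (hz : z.im ≠ 0) : z ∈ Complex.integerComplement := by
  rw [Complex.mem_integerComplement_iff]
  rintro ⟨n, rfl⟩
  simp at hz

/-- the summand of the row sum -/
noncomputable def rt (z : ℂ) (n : ℤ) : ℂ := 1 / ((z + n) * (starRingEnd ℂ) (z + n))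

lemma rt_eq_pf {z : ℂ} (hz : z.im ≠ 0) (n : ℤ) :
    rt z n = ((starRingEnd ℂ) z - z)⁻¹ * (1 / (z + n) - 1 / ((starRingEnd ℂ) z + n)) := by
  have h1 : z + n ≠ 0 := by
    intro h
    have := congrArg Complex.im h
    simp at this
    exact hz this
  have h2 : (starRingEnd ℂ) z + n ≠ 0 := by
    intro h
    have := congrArg Complex.im h
    simp at this
    exact hz this
  have h3 : (starRingEnd ℂ) z - z ≠ 0 := by
    intro h
    have := congrArg Complex.im h
    simp at this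
    apply hz
    linarith
  have h4 : (starRingEnd ℂ) (z + n) = (starRingEnd ℂ) z + n := by
    rw [map_add, map_intCast]
  rw [rt, h4]
  field_simp
  ring

lemma summable_rt (z : ℂ) : Summable (rt z) := by
  have h1 : Summable fun d : ℤ => ‖((((1 : ℤ) : ℂ) * z + d) ^ (2 : ℤ))⁻¹‖ :=
    (EisensteinSeries.linear_right_summable z 1 (k := 2) le_rfl).norm
  refine Summable.of_norm (h1.congr (fun n => ?_))
  rw [rt, norm_inv, norm_zpow, norm_div, norm_one, norm_mul, RCLike.norm_conj]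
  push_cast
  rw [one_mul, one_div, zpow_two]

/-- the row sum by the cotangent series -/
lemma tsum_rt {z : ℂ} (hz : z.im ≠ 0) :
    ∑' n : ℤ, rt z n = ((starRingEnd ℂ) z - z)⁻¹ *
      (Real.pi * cot (Real.pi * z) - Real.pi * cot (Real.pi * (starRingEnd ℂ) z)) := by
  have hs := summable_rt z
  have hz' : ((starRingEnd ℂ) z).im ≠ 0 := by simpa using hz
  have h1 : Summable fun n : ℕ => rt z ((n : ℤ) + 1) :=
    hs.comp_injective (i := fun n : ℕ => (n : ℤ) + 1) (fun a b h => by simpa using h)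
  have h2 : Summable fun n : ℕ => rt z (-((n : ℤ) + 1)) :=
    hs.comp_injective (i := fun n : ℕ => -((n : ℤ) + 1)) (fun a b h => by simpa using h)
  rw [tsum_of_add_one_of_neg_add_one h1 h2]
  have h3 : (∑' n : ℕ, rt z ((n : ℤ) + 1)) + rt z 0 + ∑' n : ℕ, rt z (-((n : ℤ) + 1))
      = rt z 0 + ∑' n : ℕ, (rt z ((n : ℤ) + 1) + rt z (-((n : ℤ) + 1))) := by
    rw [h1.tsum_add h2]
    ring
  rw [h3]
  have c1 := cot_series_rep' (mem_intCompl hz)
  have c2 := cot_series_rep' (mem_intCompl hz')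
  have s1 := summable_cotTerm (mem_intCompl hz)
  have s2 := summable_cotTerm (mem_intCompl hz')
  have h4 : ∑' n : ℕ, (rt z ((n : ℤ) + 1) + rt z (-((n : ℤ) + 1)))
      = ((starRingEnd ℂ) z - z)⁻¹ *
        ((∑' n : ℕ, (1 / (z - (n + 1)) + 1 / (z + (n + 1))))
          - ∑' n : ℕ, (1 / ((starRingEnd ℂ) z - (n + 1)) + 1 / ((starRingEnd ℂ) z + (n + 1)))) := by
    rw [← Summable.tsum_sub s1 s2, ← tsum_mul_left]
    refine tsum_congr (fun n => ?_)
    rw [rt_eq_pf hz, rt_eq_pf hz]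
    push_cast
    ring
  rw [h4, ← c1, ← c2, rt_eq_pf hz]
  push_cast
  ring

/-- closed form of the row sum for `z` in the upper half plane with `exp (2 π i z)` real -/
lemma tsum_rt_of_real {z : ℂ} (hz : 0 < z.im) {Q : ℝ} (hQ : exp (2 * Real.pi * I * z) = (Q : ℂ))
    (hQ1 : |Q| < 1) :
    ∑' n : ℤ, rt z n = ((Real.pi / z.im * ((1 + Q) / (1 - Q)) : ℝ) : ℂ) := by
  rw [tsum_rt hz.ne']
  have hQ2 := abs_lt.mp hQ1
  have hQ3 : (1 : ℂ) - (Q : ℂ) ≠ 0 := by
    have : (1 : ℝ) - Q ≠ 0 := by linarith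
    exact_mod_cast this
  have h1 : cot (Real.pi * z) = (Q + 1) / (I * (1 - Q)) := by
    rw [Complex.cot_pi_eq_exp_ratio, hQ]
  have h2 : cot (Real.pi * (starRingEnd ℂ) z) = (starRingEnd ℂ) (cot (Real.pi * z)) := by
    rw [← Complex.cot_conj, map_mul, Complex.conj_ofReal]
  rw [h2, h1]
  have h3 : (starRingEnd ℂ) (((Q : ℂ) + 1) / (I * (1 - Q))) = - (((Q : ℂ) + 1) / (I * (1 - Q))) := by
    simp only [map_div₀, map_add, map_mul, map_sub, map_one, Complex.conj_ofReal, Complex.conj_I]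
    field_simp
  rw [h3]
  have h4 : (starRingEnd ℂ) z - z = -(2 * z.im * I) := by
    apply Complex.ext
    · simp
    · simp
      ring
  have h5 : (z.im : ℂ) ≠ 0 := by exact_mod_cast hz.ne'
  rw [h4]
  push_cast
  field_simp
  rw [Complex.I_sq]
  ring

end Pool.RV
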