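import Pool.Agent.Work.MP_5955e5_nt.E.RowSum

/-!
# Cell RV, block (e2), part 2: reduction of `Kreg 1 1` to a limit of one-dimensional sums (helper11)
-/

set_option autoImplicit false

open Complex Filter Topology

namespace Pool.RV

/-- the row sum `∑_n 1/|m τ + n|²` -/
noncomputable def fr (w : ℝ) (m : ℤ) : ℝ :=
  if m = 0 then Real.pi ^ 2 / 3
  else Real.pi / (m.natAbs * w) * ((1 + (-rr w) ^ m.natAbs) / (1 - (-rr w) ^ m.natAbs))

lemma fr_neg (w : ℝ) (m : ℤ) : fr w (-m) = fr w m := by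
  simp [fr]

lemma F2_eq_rt (w : ℝ) (m n : ℤ) : F2 1 1 w (m, n) = rt ((m : ℂ) * tau w) n := by
  rw [F2_eq, rt, pow_one, pow_one, gm]

lemma exp_tau (w : ℝ) (m : ℕ) :
    exp (2 * Real.pi * I * ((m : ℂ) * tau w)) = (((-rr w) ^ m : ℝ) : ℂ) := by
  have h : 2 * Real.pi * I * ((m : ℂ) * tau w)
      = (m : ℂ) * (-(Real.pi * I) + ((-2 * Real.pi * w : ℝ) : ℂ)) := by
    rw [tau]
    push_cast
    ring_nf
    rw [I_sq]
    ring
  rw [h, exp_nat_mul, exp_add, ← ofReal_exp, exp_neg, exp_pi_mul_I, rr]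
  push_cast
  congr 1
  ring

lemma abs_q_pow_lt {w : ℝ} (hw : 0 < w) {m : ℕ} (hm : 1 ≤ m) : |(-rr w) ^ m| < 1 := by
  rw [abs_rr_pow]
  calc rr w ^ m ≤ rr w ^ 1 := pow_le_pow_of_le_one (rr_pos w).le (rr_lt_one hw).le hm
    _ < 1 := by rw [pow_one]; exact rr_lt_one hw

lemma summable_rowE (w : ℝ) (m : ℤ) : Summable fun n : ℤ => F2 1 1 w (m, n) := by
  simp only [F2_eq_rt]
  exact summable_rt _

lemma tsum_row_pos {w : ℝ} (hw : 0 < w) {m : ℕ} (hm : 1 ≤ m) :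
    ∑' n : ℤ, F2 1 1 w ((m : ℤ), n) = (fr w m : ℂ) := by
  simp only [F2_eq_rt]
  have him : (((m : ℤ) : ℂ) * tau w).im = m * w := by
    have h2 : ((m : ℤ) : ℂ) = ((m : ℝ) : ℂ) := by push_cast; rfl
    rw [h2, im_ofReal_mul, tau_im]
  have hm' : (0 : ℝ) < m := by exact_mod_cast hm
  have h0 : 0 < (((m : ℤ) : ℂ) * tau w).im := by
    rw [him]; positivity
  have hex : exp (2 * Real.pi * I * (((m : ℤ) : ℂ) * tau w)) = (((-rr w) ^ m : ℝ) : ℂ) := by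
    have := exp_tau w m
    push_cast at this ⊢
    exact this
  rw [tsum_rt_of_real h0 hex (abs_q_pow_lt hw hm), him, fr, if_neg (by omega), Int.natAbs_natCast]

lemma tsum_row_zero (w : ℝ) : ∑' n : ℤ, F2 1 1 w (0, n) = (fr w 0 : ℂ) := by
  have hs := summable_rowE w 0
  have h1 : Summable fun n : ℕ => F2 1 1 w (0, (n : ℤ) + 1) :=
    hs.comp_injective (i := fun n : ℕ => (n : ℤ) + 1) (fun a b h => by simpa using h)
  have h2 : Summable fun n : ℕ => F2 1 1 w (0, -((n : ℤ) + 1)) :=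
    hs.comp_injective (i := fun n : ℕ => -((n : ℤ) + 1)) (fun a b h => by simpa using h)
  have e1 : ∀ n : ℕ, F2 1 1 w (0, (n : ℤ) + 1) = ((1 / ((n + 1 : ℕ) : ℝ) ^ 2 : ℝ) : ℂ) := by
    intro n
    rw [F2_eq_rt, rt]
    simp only [Int.cast_zero, zero_mul, zero_add, map_intCast]
    push_cast
    ring
  have e2 : ∀ n : ℕ, F2 1 1 w (0, -((n : ℤ) + 1)) = ((1 / ((n + 1 : ℕ) : ℝ) ^ 2 : ℝ) : ℂ) := by
    intro n
    rw [F2_eq_rt, rt]
    simp only [Int.cast_zero, zero_mul, zero_add, map_intCast]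
    push_cast
    ring
  rw [tsum_of_add_one_of_neg_add_one (f := fun n : ℤ => F2 1 1 w (0, n)) h1 h2]
  have e3 : F2 1 1 w (0, 0) = 0 := F2_zero rfl w
  rw [e3]
  have h3 : ∑' n : ℕ, (1 / ((n + 1 : ℕ) : ℝ) ^ 2) = Real.pi ^ 2 / 6 := by
    have h4 := hasSum_zeta_two
    have h5 := (hasSum_nat_add_iff' 1).mpr h4
    simp only [Finset.range_one, Finset.sum_singleton, Nat.cast_zero] at h5
    rw [h5.tsum_eq]
    norm_num
  have h4 : ∑' n : ℕ, F2 1 1 w (0, (n : ℤ) + 1) = ((Real.pi ^ 2 / 6 : ℝ) : ℂ) := by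
    rw [← h3, ofReal_tsum]
    exact tsum_congr e1
  have h5 : ∑' n : ℕ, F2 1 1 w (0, -((n : ℤ) + 1)) = ((Real.pi ^ 2 / 6 : ℝ) : ℂ) := by
    rw [← h3, ofReal_tsum]
    exact tsum_congr e2
  rw [h4, h5, fr, if_pos rfl]
  push_cast
  ring

lemma tsum_row {w : ℝ} (hw : 0 < w) (m : ℤ) : ∑' n : ℤ, F2 1 1 w (m, n) = (fr w m : ℂ) := by
  rcases lt_trichotomy m 0 with h | h | h
  · obtain ⟨k, hk⟩ : ∃ k : ℕ, m = -(k : ℤ) := ⟨m.natAbs, by omega⟩
    have hk1 : 1 ≤ k := by omega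
    rw [hk, fr_neg, ← tsum_row_pos hw hk1, ← (Equiv.neg ℤ).tsum_eq]
    refine tsum_congr (fun n => ?_)
    simp only [Equiv.neg_apply]
    exact F2_neg rfl w (((k : ℤ), n))
  · subst h
    exact tsum_row_zero w
  · obtain ⟨k, hk⟩ : ∃ k : ℕ, m = (k : ℤ) := ⟨m.natAbs, by omega⟩
    subst hk
    exact tsum_row_pos hw (by omega)

lemma hasSum_row {w : ℝ} (hw : 0 < w) (m : ℤ) :
    HasSum (fun n : ℤ => F2 1 1 w (m, n)) (fr w m : ℂ) := by
  rw [← tsum_row hw m]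
  exact (summable_rowE w m).hasSum

lemma ch_row (j m n : ℤ) : ch (j, 0) (m, n) = ch (j, 0) (m, 0) := by
  rw [ch, ch]
  simp

/-- the two-dimensional sum as a one-dimensional sum -/
lemma hasSum_rows {w : ℝ} (hw : 0 < w) (j : ℤ) :
    HasSum (fun m : ℤ => ch (j, 0) (m, 0) * ((fr w m : ℂ) - (fr w (m - 1) : ℂ)))
      (Cc 1 1 (j, 0) w (1, 0)) := by
  have h := (summable_F2_sub hw (p := 1) (q := 1) rfl (j, 0) (1, 0)).hasSum
  refine h.prod_fiberwise (fun m => ?_)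
  have h1 : HasSum (fun n : ℤ => ch (j, 0) (m, 0) * (F2 1 1 w (m, n) - F2 1 1 w (m - 1, n)))
      (ch (j, 0) (m, 0) * ((fr w m : ℂ) - (fr w (m - 1) : ℂ))) :=
    ((hasSum_row hw m).sub (hasSum_row hw (m - 1))).mul_left _
  convert h1 using 2 with n
  rw [ch_row]
  simp

/-- `fr` tends to zero -/
lemma abs_fr_le {w : ℝ} (hw : 0 < w) (n : ℕ) :
    |fr w (n + 1)| ≤ 2 * Real.pi / (w * (1 - rr w)) * (1 / ((n : ℝ) + 1)) := by
  have h0 : ((n : ℤ) + 1).natAbs = n + 1 := by omega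
  rw [fr, if_neg (by omega), h0, abs_mul, abs_div]
  have hq := abs_q_pow_lt hw (m := n + 1) (by omega)
  have hq1 : |(-rr w) ^ (n + 1)| ≤ rr w := by
    rw [abs_rr_pow]
    calc rr w ^ (n + 1) ≤ rr w ^ 1 :=
          pow_le_pow_of_le_one (rr_pos w).le (rr_lt_one hw).le (by omega)
      _ = rr w := pow_one _
  have hq2 := abs_le.mp hq1
  have hq3 := abs_lt.mp hq
  have hr := rr_lt_one hw
  have hpi := Real.pi_pos
  have h1 : |Real.pi| = Real.pi := abs_of_pos hpi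
  have h2 : |((n + 1 : ℕ) : ℝ) * w| = ((n : ℝ) + 1) * w := by
    push_cast
    exact abs_of_pos (by positivity)
  have h3 : |1 + (-rr w) ^ (n + 1)| ≤ 2 := by
    rw [abs_le]; constructor <;> linarith [hq3.1, hq3.2]
  have h4 : 1 - rr w ≤ |1 - (-rr w) ^ (n + 1)| := by
    refine le_trans ?_ (le_abs_self _)
    linarith [hq2.2]
  have h5 : 0 < 1 - rr w := by linarith
  rw [h1, h2, abs_div]
  have h6 : |1 + (-rr w) ^ (n + 1)| / |1 - (-rr w) ^ (n + 1)| ≤ 2 / (1 - rr w) :=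
    div_le_div₀ (by norm_num) h3 h5 h4
  calc Real.pi / (((n : ℝ) + 1) * w) * (|1 + (-rr w) ^ (n + 1)| / |1 - (-rr w) ^ (n + 1)|)
      ≤ Real.pi / (((n : ℝ) + 1) * w) * (2 / (1 - rr w)) :=
        mul_le_mul_of_nonneg_left h6 (by positivity)
    _ = _ := by
        field_simp

lemma tendsto_fr {w : ℝ} (hw : 0 < w) : Tendsto (fun n : ℕ => fr w (n : ℤ)) atTop (𝓝 0) := by
  rw [← tendsto_add_atTop_iff_nat 1]
  have h1 : Tendsto (fun n : ℕ => 2 * Real.pi / (w * (1 - rr w)) * (1 / ((n : ℝ) + 1))) atTop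
      (𝓝 0) := by
    simpa using tendsto_one_div_add_atTop_nhds_zero_nat.const_mul
      (2 * Real.pi / (w * (1 - rr w)))
  refine squeeze_zero_norm (fun n => ?_) h1
  rw [Real.norm_eq_abs]
  push_cast
  exact abs_fr_le hw n

/-- finite sums -/
noncomputable def PS (w : ℝ) (j : ℤ) (N : ℕ) : ℂ :=
  (fr w 0 : ℂ) + ∑ n ∈ Finset.range N,
    (ch (j, 0) ((n : ℤ) + 1, 0) + ch (j, 0) (-((n : ℤ) + 1), 0)) * (fr w ((n : ℤ) + 1) : ℂ)

lemma ch_succ (j m : ℤ) : ch (j, 0) (m + 1, 0) = ch (j, 0) (m, 0) * ch (j, 0) (1, 0) := by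
  rw [← ch_add_right]
  simp

lemma PS_identity (w : ℝ) (j : ℤ) (N : ℕ) :
    ∑ n ∈ Finset.range N,
      (ch (j, 0) ((n : ℤ), 0) * ((fr w n : ℂ) - (fr w (n - 1) : ℂ))
        + ch (j, 0) (-((n : ℤ) + 1), 0) *
            ((fr w (-((n : ℤ) + 1)) : ℂ) - (fr w (-((n : ℤ) + 1) - 1) : ℂ)))
      = (1 - ch (j, 0) (1, 0)) * PS w j N
        - (1 - ch (j, 0) (1, 0)) * ch (j, 0) ((N : ℤ), 0) * (fr w N : ℂ)
        + ch (j, 0) ((N : ℤ), 0) * (fr w ((N : ℤ) - 1) : ℂ)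
        - ch (j, 0) (-(N : ℤ), 0) * (fr w ((N : ℤ) + 1) : ℂ) := by
  induction N with
  | zero =>
    have h1 : fr w (-1) = fr w 1 := fr_neg w 1
    have h2 : ch (j, 0) (0, 0) = 1 := ch_zero_right _
    simp only [Finset.range_zero, Finset.sum_empty, PS, Nat.cast_zero, neg_zero, zero_sub, zero_add,
      h1, h2]
    ring
  | succ N ih =>
    rw [Finset.sum_range_succ, ih]
    have h1 : fr w (-((N : ℤ) + 1)) = fr w ((N : ℤ) + 1) := fr_neg w _
    have h2 : fr w (-((N : ℤ) + 1) - 1) = fr w ((N : ℤ) + 1 + 1) := by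
      rw [← fr_neg w ((N : ℤ) + 1 + 1)]
      exact congrArg (fr w) (by ring)
    have h3 : ch (j, 0) (-(N : ℤ), 0) = ch (j, 0) (-((N : ℤ) + 1), 0) * ch (j, 0) (1, 0) := by
      rw [← ch_succ, neg_add, neg_add_cancel_right]
    have h4 := ch_succ j N
    have h5 : ((N + 1 : ℕ) : ℤ) = (N : ℤ) + 1 := by push_cast; rfl
    have h6 : (N : ℤ) + 1 - 1 = N := by ring
    have h7 : PS w j (N + 1) = PS w j N +
        (ch (j, 0) ((N : ℤ) + 1, 0) + ch (j, 0) (-((N : ℤ) + 1), 0)) * (fr w ((N : ℤ) + 1) : ℂ) := by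
      rw [PS, PS, Finset.sum_range_succ]
      ring
    rw [h7, h1, h2, h5, h6, h3, h4]
    ring

/-- `Kreg` as a limit of finite sums -/
lemma tendsto_PS {w : ℝ} (hw : 0 < w) {j : ℤ} (hj : ¬ (6 ∣ j)) :
    Tendsto (PS w j) atTop (𝓝 (Kreg 1 1 (j, 0) w)) := by
  have hne : (1 - ch (j, 0) (1, 0)) ≠ 0 := sub_ne_zero.mpr (Ne.symm (ch_tau_ne_one hj))
  have h1 := (hasSum_rows hw j).nat_add_neg_add_one.tendsto_sum_nat
  simp only [PS_identity] at h1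
  have hf : Tendsto (fun n : ℕ => (fr w (n : ℤ) : ℂ)) atTop (𝓝 0) := by
    have := (Complex.continuous_ofReal.tendsto 0).comp (tendsto_fr hw)
    rw [Complex.ofReal_zero] at this
    exact this
  have hf1 : Tendsto (fun n : ℕ => (fr w ((n : ℤ) + 1) : ℂ)) atTop (𝓝 0) := by
    have := (tendsto_add_atTop_iff_nat 1).mpr hf
    refine this.congr (fun n => ?_)
    push_cast
    rfl
  have hf2 : Tendsto (fun n : ℕ => (fr w ((n : ℤ) - 1) : ℂ)) atTop (𝓝 0) := by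
    rw [← tendsto_add_atTop_iff_nat 1]
    refine hf.congr (fun n => ?_)
    push_cast
    rw [add_sub_cancel_right]
  have hb : ∀ (c : ℂ) (s : ℕ → ℂ) (g : ℕ → ℂ), (∀ n, ‖s n‖ = 1) → Tendsto g atTop (𝓝 0) →
      Tendsto (fun n => c * s n * g n) atTop (𝓝 0) := by
    intro c s g hs hg
    rw [tendsto_zero_iff_norm_tendsto_zero]
    have h2 := (tendsto_zero_iff_norm_tendsto_zero.mp hg).const_mul ‖c‖
    rw [mul_zero] at h2
    refine h2.congr (fun n => ?_)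
    rw [norm_mul, norm_mul, hs, mul_one]
  have t1 := hb (1 - ch (j, 0) (1, 0)) (fun N : ℕ => ch (j, 0) ((N : ℤ), 0)) _
    (fun n => norm_ch _ _) hf
  have t2 := hb 1 (fun N : ℕ => ch (j, 0) ((N : ℤ), 0)) _ (fun n => norm_ch _ _) hf2
  have t3 := hb 1 (fun N : ℕ => ch (j, 0) (-(N : ℤ), 0)) _ (fun n => norm_ch _ _) hf1
  have h2 := ((h1.add t1).sub t2).add t3
  have h3 := h2.const_mul ((1 - ch (j, 0) (1, 0))⁻¹)
  rw [add_zero, sub_zero, add_zero, ← Kreg_eq] at h3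
  refine h3.congr (fun N => ?_)
  field_simp
  ring

end Pool.RV
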